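import Pool.Agent.Y472.K.Defs

/-!
# The contour formula (S_CON)

The sum of the values of the derivative of an odd periodic entire function at the points
`2 π p / N` as an integral over a horizontal line.  We add the two formulas of `sum_deriv` for
`P = 0` and `P = N - 1`.
-/

set_option autoImplicit false

namespace Pool.Agent.Y487.TK

open Finset Filter Topology MeasureTheory Pool.Agent.Y391.CB
open scoped Real

theorem kN_per (N : ℕ) (u : ℂ) : kN N (u + 2 * π) = kN N u := by
  unfold kN
  have h1 : Complex.exp (Complex.I * N * (u + 2 * π)) = Complex.exp (Complex.I * N * u) := by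
    have h2 : Complex.I * N * (u + 2 * π) = Complex.I * N * u +
        ((N : ℤ) : ℂ) * (2 * π * Complex.I) := by
      push_cast
      ring
    rw [h2, Complex.exp_add, Complex.exp_int_mul_two_pi_mul_I, mul_one]
  rw [h1]

theorem kN_cont (N : ℕ) (hN : 1 ≤ N) {h : ℝ} (hh : 0 < h) :
    Continuous fun x : ℝ => kN N (x + h * Complex.I) := by
  unfold kN
  apply Continuous.div
  · fun_prop
  · fun_prop
  · intro x
    apply pow_ne_zero
    intro h0
    have h1 : Complex.exp (Complex.I * N * (x + h * Complex.I)) = 1 := by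
      linear_combination -h0
    have h2 := congrArg norm h1
    rw [Complex.norm_exp, norm_one] at h2
    have h3 : (Complex.I * N * (x + h * Complex.I)).re = -(N * h) := by
      simp
    rw [h3, Real.exp_eq_one_iff] at h2
    have h4 : (0 : ℝ) < N := by exact_mod_cast hN
    have h5 : 0 < (N : ℝ) * h := by positivity
    linarith

theorem s_con : Pool.Agent.Y472.K.S_CON := by
  intro N F y hN hy hF hper hodd
  have hNR : (0 : ℝ) < N := by exact_mod_cast hN
  have hNC : (N : ℂ) ≠ 0 := by exact_mod_cast hNR.ne'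
  have hpi := Real.pi_pos
  have hpiC : (π : ℂ) ≠ 0 := by exact_mod_cast hpi.ne'
  -- the derivative is even
  have hdev : ∀ z, deriv F (-z) = deriv F z := by
    intro z
    have h1 : F = fun z => -F (-z) := by
      funext w
      rw [hodd, neg_neg]
    have h2 : deriv (fun z => -F (-z)) z = deriv F (-z) := by
      have h3 : HasDerivAt (fun z : ℂ => F (-z)) (deriv F (-z) * (-1)) z :=
        HasDerivAt.comp z (hF _).hasDerivAt (hasDerivAt_neg z)
      have h4 := h3.neg
      rw [show (fun z => -F (-z)) = -fun z => F (-z) from rfl, h4.deriv]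
      ring
    rw [← h2, ← h1]
  have e0 := sum_deriv hF hodd hN 0 hy
  have e1 := sum_deriv hF hodd hN (N - 1) hy
  -- the sum of the left sides
  have hL : ∑ p ∈ Finset.Icc (-((0 : ℕ) : ℤ)) ((0 : ℕ) : ℤ), deriv F (2 * π * p / N) +
      ∑ p ∈ Finset.Icc (-((N - 1 : ℕ) : ℤ)) ((N - 1 : ℕ) : ℤ), deriv F (2 * π * p / N) =
      2 * ∑ p ∈ range N, deriv F (2 * π * p / N) := by
    obtain ⟨M, rfl⟩ : ∃ M, N = M + 1 := ⟨N - 1, by omega⟩
    simp only [Nat.add_sub_cancel]
    obtain ⟨g, hg⟩ : ∃ g : ℤ → ℂ, g = fun p : ℤ => deriv F (2 * π * p / (M + 1 : ℕ)) := ⟨_, rfl⟩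
    have hge : ∀ p, g (-p) = g p := by
      intro p
      rw [hg]
      simp only
      rw [← hdev]
      congr 1
      push_cast
      ring
    have hgr : ∑ p ∈ range (M + 1), deriv F (2 * π * p / (M + 1 : ℕ)) =
        ∑ p ∈ range (M + 1), g p := by
      apply Finset.sum_congr rfl
      intro p _
      rw [hg]
      simp
    rw [hgr]
    have hgl : ∀ s : Finset ℤ, ∑ p ∈ s, deriv F (2 * π * p / (M + 1 : ℕ)) = ∑ p ∈ s, g p := by
      intro s
      rw [hg]
    rw [hgl, hgl]
    clear hgr hgl hg
    have h0 : ∑ p ∈ Finset.Icc (-((0 : ℕ) : ℤ)) ((0 : ℕ) : ℤ), g p = g 0 := by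
      simp
    rw [h0]
    have key : ∀ K : ℕ, g 0 + ∑ p ∈ Finset.Icc (-(K : ℤ)) (K : ℤ), g p =
        2 * ∑ p ∈ range (K + 1), g p := by
      intro K
      induction K with
      | zero => simp; ring
      | succ K ih =>
        rw [Finset.sum_range_succ, mul_add, ← ih]
        have h1 : Finset.Icc (-((K + 1 : ℕ) : ℤ)) ((K + 1 : ℕ) : ℤ) =
            insert (-((K + 1 : ℕ) : ℤ)) (insert ((K + 1 : ℕ) : ℤ) (Finset.Icc (-(K : ℤ)) K)) := by
          ext p
          simp only [Finset.mem_Icc, Finset.mem_insert]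
          push_cast
          omega
        rw [h1, Finset.sum_insert, Finset.sum_insert, hge]
        · ring
        · simp only [Finset.mem_Icc, not_and, not_le]
          push_cast
          omega
        · simp only [Finset.mem_insert, Finset.mem_Icc, not_or, not_and, not_le]
          push_cast
          omega
    exact key M
  obtain ⟨φ, hφ⟩ : ∃ φ : ℂ → ℂ, φ = fun u => F u * kN N u := ⟨_, rfl⟩
  have hφo : ∀ z, φ (-z) = -φ z := by
    intro z
    rw [hφ]
    simp only
    rw [hodd, kN_neg]
    ring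
  have hφp : ∀ z, φ (z + 2 * π) = φ z := by
    intro z
    rw [hφ]
    simp only
    rw [hper, kN_per]
  have hφc : Continuous fun x : ℝ => φ (x + y * Complex.I) := by
    rw [hφ]
    apply Continuous.mul
    · exact hF.continuous.comp (by fun_prop)
    · exact kN_cont N hN hy
  have hii : ∀ a b : ℝ, IntervalIntegrable (fun x : ℝ => φ (x + y * Complex.I)) volume a b :=
    fun a b => hφc.intervalIntegrable a b
  have hP : Function.Periodic (fun x : ℝ => φ (x + y * Complex.I)) (2 * π) := by
    intro x
    show φ ((x + 2 * π : ℝ) + y * Complex.I) = φ (x + y * Complex.I)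
    rw [← hφp (x + y * Complex.I)]
    congr 1
    push_cast
    ring
  obtain ⟨c, hc⟩ : ∃ c : ℝ, c = π / N := ⟨_, rfl⟩
  have c0 : ((2 * ((0 : ℕ) : ℝ) + 1) * π / N : ℝ) = c := by
    rw [hc]; simp
  have c1 : ((2 * ((N - 1 : ℕ) : ℝ) + 1) * π / N : ℝ) = 2 * π - c := by
    rw [hc, Nat.cast_sub hN]
    push_cast
    field_simp
    ring
  rw [c0] at e0
  rw [c1] at e1
  have e2 := congrArg₂ (fun u v : ℂ => u + v) e0 e1
  beta_reduce at e2
  rw [hL] at e2
  have hcong : ∀ a b : ℝ, (∫ x in a..b, F (x + y * Complex.I) * kN N (x + y * Complex.I)) =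
      ∫ x in a..b, φ (x + y * Complex.I) := by
    intro a b
    rw [hφ]
  have hcongv : ∀ a : ℝ, (∫ t in (-y)..y, F (a + t * Complex.I) * kN N (a + t * Complex.I)) =
      ∫ t in (-y)..y, φ (a + t * Complex.I) := by
    intro a
    rw [hφ]
  rw [hcong, hcong, hcongv, hcongv] at e2
  rw [hcong]
  -- vertical sides
  have hv : (∫ t in (-y)..y, φ ((2 * π - c : ℝ) + t * Complex.I)) =
      -∫ t in (-y)..y, φ (c + t * Complex.I) := by
    have h2 := intervalIntegral.integral_comp_neg (a := -y) (b := y)
      (fun t : ℝ => φ ((2 * π - c : ℝ) + t * Complex.I))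
    rw [neg_neg] at h2
    rw [← h2, ← intervalIntegral.integral_neg]
    apply intervalIntegral.integral_congr
    intro t _
    show φ ((2 * π - c : ℝ) + (-t : ℝ) * Complex.I) = -φ (c + t * Complex.I)
    rw [← hφo, ← hφp (-(c + t * Complex.I))]
    congr 1
    push_cast
    ring
  -- horizontal sides
  have hh : (∫ x in (-c)..c, φ (x + y * Complex.I)) +
      (∫ x in (-(2 * π - c))..(2 * π - c), φ (x + y * Complex.I)) =
      2 * ∫ x in (-π)..π, φ (x + y * Complex.I) := by
    have h1 := intervalIntegral.integral_add_adjacent_intervals (hii (-(2 * π - c)) (-c))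
      (hii (-c) (2 * π - c))
    have h2 := intervalIntegral.integral_add_adjacent_intervals (hii (-(2 * π - c)) (-c))
      (hii (-c) c)
    have h3 := hP.intervalIntegral_add_eq (-(2 * π - c)) (-π)
    have h4 := hP.intervalIntegral_add_eq (-c) (-π)
    rw [show -(2 * π - c) + 2 * π = c by ring, show -π + 2 * π = π by ring] at h3
    rw [show -c + 2 * π = 2 * π - c by ring, show -π + 2 * π = π by ring] at h4
    rw [← h1]
    linear_combination h2 + h3 + h4
  rw [hv] at e2
  have e3 : 2 * ∑ p ∈ range N, deriv F (2 * π * p / N) = Complex.I / (2 * π) * (N * (N * (-2 *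
      ((∫ x in (-c)..c, φ (x + y * Complex.I)) +
      (∫ x in (-(2 * π - c))..(2 * π - c), φ (x + y * Complex.I)))))) := by
    rw [e2]
    ring
  rw [hh] at e3
  have e4 : ∑ p ∈ range N, deriv F (2 * π * p / N) = (1 / 2) * (2 *
      ∑ p ∈ range N, deriv F (2 * π * p / N)) := by ring
  rw [e4, e3]
  field_simp

end Pool.Agent.Y487.TK
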